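import Pool.Agent.Helper2.EG.Stmts

/-! # Module LV: simple facts on partial solutions -/

set_option autoImplicit false

namespace Pool.Agent.Helper2.EG

theorem st_LV : ST_LV := by
  refine ⟨?_, ?_, ?_, ?_⟩
  · rintro n j Q c m m' hm ⟨x, h1, h2, h3, h4⟩
    exact ⟨x, h1, fun i => ⟨(h2 i).1, (h2 i).2.trans hm⟩, h3, h4⟩
  · intro n _
    refine ⟨fun i => i.elim0, fun i => i.elim0, fun i => i.elim0, ?_, ?_⟩
    · rw [Finset.univ_eq_empty, Finset.prod_empty, Nat.mul_one]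
    · rw [Finset.univ_eq_empty, Finset.sum_empty, Nat.cast_one, sub_self]
  · rintro n j Q c m _ ⟨x, _, h2, h3, _⟩
    rw [← h3]
    apply Nat.mul_le_mul_left
    have h5 : ∏ _i : Fin j, 2 ≤ ∏ i, x i := Finset.prod_le_prod' (fun i _ => (h2 i).1)
    rw [Finset.prod_const, Finset.card_univ, Fintype.card_fin] at h5
    exact h5
  · rintro n j P hn ⟨x, h1, h2, h3, h4⟩
    refine ⟨x, h1, fun i => (h2 i).1, ?_⟩
    have h5 : (P : ℚ) = (n : ℚ) * ∏ i, (x i : ℚ) := by
      rw [← h3]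
      push_cast
      rfl
    rw [← h5, h4, Nat.cast_one]
    ring

end Pool.Agent.Helper2.EG
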