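import Pool.Agent.Helper2.EG.Stmts

/-! # Module TP: tail with a pattern -/

set_option autoImplicit false

namespace Pool.Agent.Helper2.EG

theorem tp_step {m x y : ℕ} (h : x ≡ y [MOD m]) : fA x ≡ fA y [MOD m] :=
  Nat.ModEq.mul h (h.add_right 1)

theorem tp_iter {m x y : ℕ} (h : x ≡ y [MOD m]) (i : ℕ) : fA^[i] x ≡ fA^[i] y [MOD m] := by
  induction i with
  | zero => exact h
  | succ i ih =>
    rw [Function.iterate_succ_apply', Function.iterate_succ_apply']
    exact tp_step ih

theorem tp_period {m L X : ℕ} (h : fA^[L] X ≡ X [MOD m]) (k : ℕ) : fA^[k * L] X ≡ X [MOD m] := by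
  induction k with
  | zero =>
    rw [Nat.zero_mul]
    exact Nat.ModEq.refl _
  | succ k ih =>
    have h1 : (k + 1) * L = k * L + L := by ring
    rw [h1, Function.iterate_add_apply]
    exact (tp_iter h (k * L)).trans ih

theorem tp_le (x i : ℕ) : x ≤ fA^[i] x := by
  induction i with
  | zero => exact le_rfl
  | succ i ih =>
    rw [Function.iterate_succ_apply']
    refine ih.trans ?_
    unfold fA
    exact Nat.le_mul_of_pos_right _ (Nat.succ_pos _)

theorem tp_lv {n P : ℕ} (h : ∀ j P, Lv n j P → Lv n (j + 1) (P * (P + 1))) (h3 : Lv n 3 P) (i : ℕ) :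
    Lv n (3 + i) (fA^[i] P) := by
  induction i with
  | zero => exact h3
  | succ i ih =>
    rw [Function.iterate_succ_apply']
    exact h _ _ ih

theorem st_TP : ST_TP := by
  intro n c u L X _ hMV hc hu hcu hL hd1 hd2 hper hP hlast
  obtain ⟨m1, _, m3, m4, m5⟩ := hMV
  intro s hs
  refine ⟨m5 s, ?_⟩
  rcases Nat.lt_or_ge s 5 with h5 | h5
  · have h4 : s = 4 := by omega
    subst h4
    obtain ⟨P, a, b, hP3, ha, hab, habP⟩ := hlast
    exact m3 3 P a b hP3 ha hab habP
  · have hdm : L * ((s - 5) / L) + (s - 5) % L = s - 5 := Nat.div_add_mod _ _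
    have ht : (s - 5) % L < L := Nat.mod_lt _ hL
    set t := (s - 5) % L with htd
    set k := (s - 5) / L with hkd
    obtain ⟨P, hP3, hcP, huP, hPX⟩ := hP t ht
    have hX : fA^[k * L + t] P ≡ X [MOD c * u] := by
      rw [Function.iterate_add_apply]
      exact (tp_iter hPX (k * L)).trans (tp_period hper k)
    have hle := tp_le P (k * L + t)
    have hlv := tp_lv m1 hP3 (k * L + t)
    have hXc : fA^[k * L + t] P ≡ X [MOD c] := hX.of_mul_right u
    have hXu : fA^[k * L + t] P ≡ X [MOD u] := hX.of_mul_left c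
    have e1 : c ∣ (fA^[k * L + t] P) ^ 2 + u :=
      (((hXc.pow 2).add_right u).dvd_iff dvd_rfl).2 hd1
    have e2 : u ∣ ((fA^[k * L + t] P) * ((fA^[k * L + t] P) + c)) ^ 2 + c :=
      ((((hXu.mul (hXu.add_right c)).pow 2).add_right c).dvd_iff dvd_rfl).2 hd2
    have hfin := m4 (3 + (k * L + t)) _ c u hlv hc hu hcu (hcP.trans hle) (huP.trans hle) e1 e2
    have hkL : k * L = L * k := Nat.mul_comm _ _
    have hs2 : 3 + (k * L + t) + 2 = s := by omega
    have hs3 : 3 + (k * L + t) + 3 = s + 1 := by omega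
    rw [hs2, hs3] at hfin
    exact hfin

end Pool.Agent.Helper2.EG
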